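import Pool.Agent.H42.CS.Defs

/-!
# Refutations with symmetric gates and the symmetries of their formulas

As in `H42/CS/Defs` propositional formulas are given by the nodes of a finite circuit with conjunctions and
symmetric gates of unbounded fan-in (`Lit`, `Gate`), the hypotheses are the instances over a universe `P`
of finitely many first-order sentences. Here a sentence is `∀ x, (⋁ literals in x) ∨ ∃ y, (⋁ atoms in x, y)`
with tuples `x` and `y` of variables. `Img C g a b` says that the formula below the node `b` is the image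
of the formula below the node `a` under the permutation `g` of `P`, up to the order of the members of the
gates; `Fixed C g Λ` says that `g` takes every member of the line `Λ` to a member of `Λ`. No symmetry of
the circuit or of the set of lines is asked. `Young χ` is the group of the permutations of `P` that preserve
the colouring `χ`.
-/

set_option autoImplicit false

namespace Pool.Agent.H16.TP

open Pool.Agent.H42.CS (Lit Gate)

/-! ### First-order axioms -/

/-- Propositional variables: the atomic statements `s (a 1, …, a k)` about points of `P`; `ar s` is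
the number of the arguments of the relation symbol `s`. -/
abbrev Atom {S : Type} (ar : S → ℕ) (P : Type) : Type := Σ s : S, (Fin (ar s) → P)

/-- Renaming of the points of an atom. -/
def Atom.map {S : Type} {ar : S → ℕ} {P P' : Type} (f : P → P') (v : Atom ar P) : Atom ar P' :=
  ⟨v.1, fun i => f (v.2 i)⟩

/-- One of the axioms, a first-order sentence `∀ x, (⋁ literals in x) ∨ ∃ y, (⋁ atoms in x, y)`,
`x` a tuple of `k` variables, `y` a tuple of `e` variables. -/
structure Ax {S : Type} (ar : S → ℕ) where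
  /-- the number of the variables `x` -/
  k : ℕ
  /-- the number of the variables `y` -/
  e : ℕ
  /-- the literals: atoms in `x` with their signs -/
  lits : Set (Atom ar (Fin k) × Bool)
  /-- the atoms after the existential quantifiers -/
  ex : Set (Atom ar (Fin k ⊕ Fin e))

/-- The instance of `A` at the points `v`: a set of signed propositional variables, read as a
disjunction. -/
def Ax.inst {S : Type} {ar : S → ℕ} {P : Type} (A : Ax ar) (v : Fin A.k → P) :
    Set (Atom ar P × Bool) :=
  {x | ∃ l ∈ A.lits, x = (l.1.map v, l.2)} ∪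
    {x | ∃ l ∈ A.ex, ∃ y : Fin A.e → P, x = (l.map (Sum.elim v y), true)}

/-! ### Circuits -/

/-- A finite acyclic circuit over the universe `P`. -/
structure Circuit {S : Type} (ar : S → ℕ) (P : Type) where
  /-- the nodes -/
  N : Type
  [fin : Finite N]
  /-- the label of a node -/
  gate : N → Gate (Atom ar P) N
  /-- the level of a node -/
  rank : N → ℕ
  rank_lt : ∀ a, ∀ x ∈ (gate a).children, rank x.node < rank a

attribute [instance] Circuit.fin

/-! ### Refutations -/

/-- The rules. A line is a set `Λ` of signed nodes, read as the disjunction of its members; it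
follows in one step from the lines in `Pr`. The hypotheses are the instances over `P` of the axioms
in `T` (`hyp`). The rules for the symmetric gates:
* `cover`: for every number `c ≤ |S|` the line has a member `sym A S`, `c ∈ A`, or `¬ sym A S`,
  `c ∉ A`;
* `unit`: `¬ x, sym A {x}` if `1 ∈ A`, and `x, sym A {x}` if `0 ∈ A`;
* `sum`: from all `sym (A b) (S b)`, `b ∈ B`, the sets `S b` disjoint: `sym A' (⋃ S b)`, if every
  choice of `c b ∈ A b` has its sum in `A'`;
* `dist` (distribution): `F` is a family of disjoint sets of size at most `J`, `B j X` is the node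
  `sym {j} X`, and `u j` says that the number of `X ∈ F` with exactly `j` true members is in `A j`
  (`j ≤ J`); from all `u j`: `sym A' (⋃ F)`, if `∑ j * t j ∈ A'` for all `t j ∈ A j` with
  `∑ t j = |F|`. -/
inductive Step {S : Type} {ar : S → ℕ} {P : Type} (T : Set (Ax ar)) (C : Circuit ar P)
    (Pr : Set (Set (Lit C.N))) : Set (Lit C.N) → Prop
  | hyp {Λ : Set (Lit C.N)} {A : Ax ar} {v : Fin A.k → P} : A ∈ T →
      (∀ x ∈ A.inst v, ∃ a, C.gate a = .var x.1 ∧ ⟨a, x.2⟩ ∈ Λ) → Step T C Pr Λ
  | ident {Λ : Set (Lit C.N)} {a b : C.N} : C.gate a = C.gate b → ⟨a, true⟩ ∈ Λ →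
      ⟨b, false⟩ ∈ Λ → Step T C Pr Λ
  | weak {Λ Δ : Set (Lit C.N)} : Δ ∈ Pr → Δ ⊆ Λ → Step T C Pr Λ
  | cut {Λ : Set (Lit C.N)} {a : C.N} : insert ⟨a, true⟩ Λ ∈ Pr → insert ⟨a, false⟩ Λ ∈ Pr →
      Step T C Pr Λ
  | andI {Λ X : Set (Lit C.N)} {a : C.N} : C.gate a = .and X → ⟨a, true⟩ ∈ Λ →
      (∀ x ∈ X, insert x Λ ∈ Pr) → Step T C Pr Λ
  | andE {Λ X : Set (Lit C.N)} {a : C.N} : C.gate a = .and X → ⟨a, false⟩ ∈ Λ →
      Λ ∪ Lit.neg '' X ∈ Pr → Step T C Pr Λ
  | cover {Λ X : Set (Lit C.N)} : (∀ c ≤ X.ncard, ∃ (a : C.N) (A : Set ℕ) (b : Bool),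
      C.gate a = .sym A X ∧ (c ∈ A ↔ b = true) ∧ ⟨a, b⟩ ∈ Λ) → Step T C Pr Λ
  | unit {Λ : Set (Lit C.N)} {a : C.N} {A : Set ℕ} {x : Lit C.N} : C.gate a = .sym A {x} →
      ⟨a, true⟩ ∈ Λ → (1 ∈ A ∧ x.neg ∈ Λ) ∨ (0 ∈ A ∧ x ∈ Λ) → Step T C Pr Λ
  | sum {Λ : Set (Lit C.N)} {a p : C.N} {B : Set C.N} {A : C.N → Set ℕ} {A' : Set ℕ}
      {X : C.N → Set (Lit C.N)} : (∀ b ∈ B, C.gate b = .sym (A b) (X b)) →
      B.PairwiseDisjoint X → C.gate p = .and ((fun b => ⟨b, true⟩) '' B) →
      C.gate a = .sym A' (⋃ b ∈ B, X b) →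
      (∀ c : C.N → ℕ, (∀ b ∈ B, c b ∈ A b) → ∑ᶠ b ∈ B, c b ∈ A') →
      ⟨p, false⟩ ∈ Λ → ⟨a, true⟩ ∈ Λ → Step T C Pr Λ
  | dist {Λ : Set (Lit C.N)} {a : C.N} {F : Set (Set (Lit C.N))} {J : ℕ}
      {B : ℕ → Set (Lit C.N) → C.N} {u : ℕ → C.N} {A : ℕ → Set ℕ} {A' : Set ℕ} :
      F.PairwiseDisjoint id → (∀ X ∈ F, X.ncard ≤ J) →
      (∀ j ≤ J, ∀ X ∈ F, C.gate (B j X) = .sym {j} X) →
      (∀ j ≤ J, C.gate (u j) = .sym (A j) ((fun X => ⟨B j X, true⟩) '' F)) →
      C.gate a = .sym A' (⋃₀ F) →
      (∀ t : ℕ → ℕ, (∀ j ≤ J, t j ∈ A j) → ∑ j ∈ Finset.range (J + 1), t j = F.ncard →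
        ∑ j ∈ Finset.range (J + 1), j * t j ∈ A') →
      (∀ j ≤ J, ⟨u j, false⟩ ∈ Λ) → ⟨a, true⟩ ∈ Λ → Step T C Pr Λ

/-- A refutation of the axioms in `T` over the universe `P`: a circuit and a set of lines, each of
which follows in one step from earlier ones; the empty line is among them. -/
structure Refutation {S : Type} {ar : S → ℕ} (T : Set (Ax ar)) (P : Type) where
  /-- the circuit -/
  C : Circuit ar P
  /-- the lines -/
  lines : Set (Set (Lit C.N))
  /-- the order of the lines -/
  order : Set (Lit C.N) → ℕ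
  step : ∀ Λ ∈ lines, Step T C {Δ | Δ ∈ lines ∧ order Δ < order Λ} Λ
  empty_mem : ∅ ∈ lines

/-- The size of a refutation: the number of nodes of the circuit plus the number of lines. -/
noncomputable def Refutation.size {S : Type} {ar : S → ℕ} {T : Set (Ax ar)} {P : Type}
    (R : Refutation T P) : ℕ :=
  Nat.card R.C.N + R.lines.ncard

/-! ### Images of formulas -/

/-- The formula below the node `b` is the image of the formula below the node `a` under the map `g` of
the points, up to the order of the members of the gates. -/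
inductive Img {S : Type} {ar : S → ℕ} {P : Type} (C : Circuit ar P) (g : P → P) : C.N → C.N → Prop
  | var {a b : C.N} {v : Atom ar P} : C.gate a = .var v → C.gate b = .var (v.map g) → Img C g a b
  | and {a b : C.N} {X X' : Set (Lit C.N)} (β : Lit C.N → Lit C.N) : C.gate a = .and X →
      C.gate b = .and X' → Set.BijOn β X X' → (∀ x ∈ X, (β x).pos = x.pos) →
      (∀ x ∈ X, Img C g x.node (β x).node) → Img C g a b
  | sym {a b : C.N} {A : Set ℕ} {X X' : Set (Lit C.N)} (β : Lit C.N → Lit C.N) :
      C.gate a = .sym A X → C.gate b = .sym A X' → Set.BijOn β X X' → (∀ x ∈ X, (β x).pos = x.pos) →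
      (∀ x ∈ X, Img C g x.node (β x).node) → Img C g a b

/-- The line `Λ` is invariant under `g`: every member is taken to a member. -/
def Fixed {S : Type} {ar : S → ℕ} {P : Type} (C : Circuit ar P) (g : P → P) (Λ : Set (Lit C.N)) :
    Prop := ∀ x ∈ Λ, ∃ y ∈ Λ, y.pos = x.pos ∧ Img C g x.node y.node

/-! ### Groups of permutations of the points -/

/-- The permutations that preserve the colouring `χ` of the points. -/
def Young {P : Type} {b : ℕ} (χ : P → Fin b) : Subgroup (Equiv.Perm P) where
  carrier := {g | ∀ x, χ (g x) = χ x}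
  mul_mem' := fun {g h} hg hh x => (hg (h x)).trans (hh x)
  one_mem' := fun _ => rfl
  inv_mem' := fun {g} hg x => by
    have h1 := hg (g⁻¹ x)
    have h2 : g (g⁻¹ x) = x := g.apply_symm_apply x
    rw [h2] at h1
    exact h1.symm

end Pool.Agent.H16.TP
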