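import Pool.Agent.H16.TP.Defs
import Pool.Agent.H16.LE.Idx
import Pool.Agent.H79.CQ.Grd

/-!
# Cells that permutations move through their signs

`r` disjoint cells of `m` points. The group of the permutations that preserve every cell acts on the
enumerations of the cells, and moves the enumerations with a given sign through the signs. `mkCells` is the
general constructor; by `sgn_card` no character is killed by the permutations that preserve a colouring with
less than `m` colours.
-/

set_option autoImplicit false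

namespace Pool.Agent.H16.TP

open Pool.Agent.H79.CQ (Cells Vs)

/-- Cells from a group that acts. -/
noncomputable def mkCells {p r : ℕ} {G Q : Type} [Group G] (Φ : G →* Equiv.Perm Q)
    (hΦ : Function.Injective Φ) (C : Fin r → ZMod p → Set Q) (pr : G → Fin r → ZMod p)
    (pr_mul : ∀ g g', pr (g * g') = pr g + pr g') (pr_onto : Function.Surjective pr)
    (ne : ∀ i b, (C i b).Nonempty) (disj : ∀ i b j c, (i, b) ≠ (j, c) → Disjoint (C i b) (C j c))
    (map : ∀ g i b, (Φ g : Equiv.Perm Q) '' C i b = C i (b + pr g i)) : Cells p Q r where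
  H := Φ.range
  C := C
  pr := fun h => pr ((MonoidHom.ofInjective hΦ).symm h)
  pr_mul := fun g g' => by rw [map_mul, pr_mul]
  pr_onto := fun f => by
    obtain ⟨g, hg⟩ := pr_onto f
    refine ⟨MonoidHom.ofInjective hΦ g, ?_⟩
    show pr ((MonoidHom.ofInjective hΦ).symm (MonoidHom.ofInjective hΦ g)) = f
    rw [MulEquiv.symm_apply_apply]
    exact hg
  ne := ne
  disj := disj
  map := fun h i b => by
    obtain ⟨g, rfl⟩ := (MonoidHom.ofInjective hΦ).surjective h
    rw [MulEquiv.symm_apply_apply]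
    exact map g i b

theorem mkCells_pr {p r : ℕ} {G Q : Type} [Group G] (Φ : G →* Equiv.Perm Q)
    (hΦ : Function.Injective Φ) (C : Fin r → ZMod p → Set Q) (pr : G → Fin r → ZMod p)
    (pr_mul : ∀ g g', pr (g * g') = pr g + pr g') (pr_onto : Function.Surjective pr)
    (ne : ∀ i b, (C i b).Nonempty) (disj : ∀ i b j c, (i, b) ≠ (j, c) → Disjoint (C i b) (C j c))
    (map : ∀ g i b, (Φ g : Equiv.Perm Q) '' C i b = C i (b + pr g i)) (g : G)
    (h : (Φ g) ∈ (mkCells Φ hΦ C pr pr_mul pr_onto ne disj map).H) :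
    (mkCells Φ hΦ C pr pr_mul pr_onto ne disj map).pr ⟨Φ g, h⟩ = pr g := by
  have h1 : (⟨Φ g, h⟩ : Φ.range) = MonoidHom.ofInjective hΦ g := Subtype.ext rfl
  show pr ((MonoidHom.ofInjective hΦ).symm ⟨Φ g, h⟩) = pr g
  rw [h1, MulEquiv.symm_apply_apply]

/-! ### Signs -/

/-- The sign as an element of `ZMod 2`. -/
def sg {m : ℕ} (σ : Equiv.Perm (Fin m)) : ZMod 2 := if Equiv.Perm.sign σ = 1 then 0 else 1

theorem sg_mul {m : ℕ} (σ τ : Equiv.Perm (Fin m)) : sg (σ * τ) = sg σ + sg τ := by
  unfold sg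
  rw [Equiv.Perm.sign_mul]
  rcases Int.units_eq_one_or (Equiv.Perm.sign σ) with h | h <;>
    rcases Int.units_eq_one_or (Equiv.Perm.sign τ) with h' | h' <;> rw [h, h'] <;> decide

theorem sg_one {m : ℕ} : sg (1 : Equiv.Perm (Fin m)) = 0 := by
  unfold sg
  rw [Equiv.Perm.sign_one, if_pos rfl]

theorem sg_swap {m : ℕ} {x y : Fin m} (h : x ≠ y) : sg (Equiv.swap x y) = 1 := by
  unfold sg
  rw [Equiv.Perm.sign_swap h, if_neg (by decide)]

/-- The permutation of `P` that moves the cells by `τ`. -/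
noncomputable def cp {r m : ℕ} {P : Type} (e : Fin r × Fin m ↪ P) :
    (Fin r → Equiv.Perm (Fin m)) →* Equiv.Perm P :=
  (Equiv.Perm.viaEmbeddingHom e).comp
    { toFun := fun τ => Equiv.prodShear (Equiv.refl _) τ
      map_one' := by
        ext x <;> rfl
      map_mul' := fun τ τ' => by
        ext x <;> rfl }

theorem cp_apply {r m : ℕ} {P : Type} (e : Fin r × Fin m ↪ P) (τ : Fin r → Equiv.Perm (Fin m))
    (i : Fin r) (x : Fin m) : cp e τ (e (i, x)) = e (i, τ i x) := by
  show Equiv.Perm.viaEmbedding _ e (e (i, x)) = _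
  rw [Equiv.Perm.viaEmbedding_apply]
  rfl

theorem cp_out {r m : ℕ} {P : Type} (e : Fin r × Fin m ↪ P) (τ : Fin r → Equiv.Perm (Fin m))
    {z : P} (hz : z ∉ Set.range e) : cp e τ z = z :=
  Equiv.Perm.viaEmbedding_apply_of_notMem _ e z hz

/-- The action on tuples of points. -/
def tup (m : ℕ) {P : Type} : Equiv.Perm P →* Equiv.Perm (Fin m → P) where
  toFun := fun g => Equiv.arrowCongr (Equiv.refl _) g
  map_one' := by
    ext u
    rfl
  map_mul' := fun g h => by
    ext u
    rfl

theorem tup_apply {m : ℕ} {P : Type} (g : Equiv.Perm P) (u : Fin m → P) :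
    tup m g u = fun x => g (u x) := rfl

/-- The enumerations of the cell `i` with sign `ε`. -/
def en {r m : ℕ} {P : Type} (e : Fin r × Fin m ↪ P) (i : Fin r) (ε : ZMod 2) : Set (Fin m → P) :=
  {u | ∃ σ : Equiv.Perm (Fin m), sg σ = ε ∧ u = fun x => e (i, σ x)}

theorem tup_injective {m : ℕ} (hm : 0 < m) {P : Type} : Function.Injective (tup m (P := P)) := by
  intro g h hgh
  ext z
  have h1 := congrArg (fun k : Equiv.Perm (Fin m → P) => k (fun _ => z) ⟨0, hm⟩) hgh
  exact h1

theorem cp_injective {r m : ℕ} {P : Type} (e : Fin r × Fin m ↪ P) : Function.Injective (cp e) := by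
  intro τ τ' h
  funext i
  ext x
  have h1 := congrArg (fun k : Equiv.Perm P => k (e (i, x))) h
  simp only [cp_apply] at h1
  have h2 := e.injective h1
  exact congrArg Fin.val (Prod.mk.inj h2).2

/-- The sign cells. -/
noncomputable def sgnCells {r m : ℕ} (hm : 2 ≤ m) {P : Type} (e : Fin r × Fin m ↪ P) :
    Cells 2 (Fin m → P) r :=
  mkCells ((tup m).comp (cp e)) ((tup_injective (by omega)).comp (cp_injective e)) (en e)
    (fun τ i => sg (τ i)) (fun τ τ' => by
      funext i
      exact sg_mul _ _)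
    (fun f => by
      refine ⟨fun i => if f i = 0 then 1 else Equiv.swap ⟨0, by omega⟩ ⟨1, by omega⟩, ?_⟩
      funext i
      show sg (if f i = 0 then 1 else Equiv.swap ⟨0, _⟩ ⟨1, _⟩) = f i
      split_ifs with h
      · rw [sg_one, h]
      · rw [sg_swap (by simp [Fin.ext_iff])]
        have h1 : ∀ a : ZMod 2, a ≠ 0 → 1 = a := by decide
        exact h1 _ h)
    (fun i b => by
      by_cases h : b = 0
      · exact ⟨fun x => e (i, x), 1, by rw [sg_one, h], rfl⟩
      · refine ⟨fun x => e (i, Equiv.swap ⟨0, by omega⟩ ⟨1, by omega⟩ x), _, ?_, rfl⟩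
        rw [sg_swap (by simp [Fin.ext_iff])]
        have h1 : ∀ a : ZMod 2, a ≠ 0 → 1 = a := by decide
        exact h1 _ h)
    (fun i b j c h => by
      rw [Set.disjoint_left]
      rintro u ⟨σ, h1, rfl⟩ ⟨σ', h2, h3⟩
      apply h
      have h4 : ∀ x, i = j ∧ σ x = σ' x := fun x => by
        have h5 := e.injective (congrFun h3 x)
        exact Prod.mk.inj h5
      have h6 : σ = σ' := Equiv.ext fun x => (h4 x).2
      rw [(h4 ⟨0, by omega⟩).1, ← h1, ← h2, h6])
    (fun τ i b => by
      ext u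
      constructor
      · rintro ⟨_, ⟨σ, h1, rfl⟩, rfl⟩
        refine ⟨τ i * σ, ?_, ?_⟩
        · rw [sg_mul, h1, add_comm]
        · funext x
          exact cp_apply e τ i (σ x)
      · rintro ⟨σ, h1, rfl⟩
        refine ⟨fun x => e (i, (τ i)⁻¹ (σ x)), ⟨(τ i)⁻¹ * σ, ?_, rfl⟩, ?_⟩
        · have h2 : sg (τ i) + sg ((τ i)⁻¹ * σ) = b + sg (τ i) := by
            rw [← sg_mul, mul_inv_cancel_left, h1]
          have h3 : ∀ a b c : ZMod 2, a + b = c + a → b = c := by decide
          exact h3 _ _ _ h2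
        · funext x
          show cp e τ (e (i, (τ i)⁻¹ (σ x))) = _
          rw [cp_apply]
          exact congrArg (fun z => e (i, z)) ((τ i).apply_symm_apply (σ x)))

/-- Less than `m` colours: in each cell two points have the same colour. -/
theorem exists_young {r m b : ℕ} (hb : b < m) {P : Type} (e : Fin r × Fin m ↪ P)
    (χ : P → Fin b) (i : Fin r) :
    ∃ τ : Fin r → Equiv.Perm (Fin m), cp e τ ∈ Young χ ∧ (fun j => sg (τ j)) = Pi.single i 1 := by
  classical
  obtain ⟨x, y, hxy, hc⟩ := Fintype.exists_ne_map_eq_of_card_lt (fun x : Fin m => χ (e (i, x)))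
    (by rw [Fintype.card_fin, Fintype.card_fin]; exact hb)
  refine ⟨Pi.mulSingle i (Equiv.swap x y), fun z => ?_, ?_⟩
  · by_cases h : z ∈ Set.range e
    · obtain ⟨⟨j, w⟩, rfl⟩ := h
      rw [cp_apply]
      by_cases hj : j = i
      · subst hj
        rw [Pi.mulSingle_eq_same]
        by_cases h1 : w = x
        · rw [h1, Equiv.swap_apply_left]
          exact hc.symm
        · by_cases h2 : w = y
          · rw [h2, Equiv.swap_apply_right]
            exact hc
          · rw [Equiv.swap_apply_of_ne_of_ne h1 h2]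
      · rw [Pi.mulSingle_eq_of_ne hj]
        rfl
    · rw [cp_out e _ h]
  · funext j
    by_cases hj : j = i
    · subst hj
      rw [Pi.mulSingle_eq_same, Pi.single_eq_same, sg_swap hxy]
    · rw [Pi.mulSingle_eq_of_ne hj, Pi.single_eq_of_ne hj, sg_one]

/-- The permutations of `Young χ` that preserve the cells move them independently. -/
theorem sgn_card {r m b : ℕ} (hm : 2 ≤ m) (hb : b < m) {P : Type} (e : Fin r × Fin m ↪ P)
    (χ : P → Fin b) :
    Nat.card (Vs (sgnCells hm e).pr (((Young χ).map (tup m)).subgroupOf (sgnCells hm e).H)) ≤ 1 := by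
  classical
  have hz : ∀ f ∈ Vs (sgnCells hm e).pr (((Young χ).map (tup m)).subgroupOf (sgnCells hm e).H),
      f = 0 := by
    intro f hf
    funext i
    obtain ⟨τ, h1, h2⟩ := exists_young hb e χ i
    have h3 : tup m (cp e τ) ∈ (sgnCells hm e).H := ⟨τ, rfl⟩
    have h4 := hf ⟨tup m (cp e τ), h3⟩ ⟨cp e τ, h1, rfl⟩
    have h5 : (sgnCells hm e).pr ⟨tup m (cp e τ), h3⟩ = fun j => sg (τ j) :=
      mkCells_pr ((tup m).comp (cp e)) _ _ _ _ _ _ _ _ τ h3
    rw [h5, h2, single_dotProduct, one_mul] at h4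
    exact h4
  have h6 : Subsingleton
      (Vs (sgnCells hm e).pr (((Young χ).map (tup m)).subgroupOf (sgnCells hm e).H)) :=
    ⟨fun f f' => Subtype.ext ((hz f f.2).trans (hz f' f'.2).symm)⟩
  exact Finite.card_le_one_iff_subsingleton.2 h6

end Pool.Agent.H16.TP
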