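import Pool.Agent.H16.TP.Tra
import Pool.Agent.H16.TP.Sgn
import Pool.Agent.H79.CQ.GrB
import Pool.Agent.H79.CQ.Upa
import Pool.Agent.H79.CQ.Low
import Pool.Agent.H79.CQ.Num

/-!
# Partially symmetric formulas do not help

PROOF. The tuple version `TM (b + 1) (T d)` of the axioms; its refutations over the points are the refutations
of `T d` over the tuples (`ofR`). The permutations that preserve `r` disjoint cells of `b + 1` points act on the
enumerations of the cells through signs (`sgnCells`); the permutations that preserve a colouring with `b` colours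
contain a transposition inside each cell (`sgn_card`). `lower_core` for the refutation given by `rst_exists`.
-/

set_option autoImplicit false

namespace Pool.Agent.H16.TP

open Pool.Agent.H79.CQ (Cells Vs T Re k8 T_finite T_lits numeric upper lower_core lower exists_cells
  size_ge_two)
open Pool.Agent.H42.CS (Lit Gate)

theorem low {n b d r L B : ℕ} (hd : 3 ≤ d) (hL : 100 * d ≤ L) (hr : L ^ d * (1 + 2 * d ^ 2) ≤ r)
    (hb : 1 ≤ b) (hn : r * (b + 1) ≤ n) (R : Refutation (TM (b + 1) (T d)) (Fin n))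
    (hR : ∀ Λ ∈ R.lines, ∃ (χ : Fin n → Fin b) (H : Subgroup (Equiv.Perm (Fin n))),
      H ≤ Young χ ∧ H.relIndex (Young χ) ≤ B ∧ ∀ g ∈ H, Fixed R.C g Λ) :
    2 ^ (L ^ (d - 2) / 100 + 1) ≤
      (4 * max (2 * B * R.size) ((2 * (r + 1)) ^ k8 d)) ^ 24 := by
  classical
  let e : Fin r × Fin (b + 1) ↪ Fin n := finProdFinEquiv.toEmbedding.trans (Fin.castLEEmb hn)
  let M : Cells 2 (Fin (b + 1) → Fin n) r := sgnCells (by omega) e
  have hM : M = sgnCells (by omega) e := rfl
  have hti := tup_injective (m := b + 1) (by omega) (P := Fin n)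
  have hBp : 1 ≤ B := by
    obtain ⟨χ, H, -, h2, -⟩ := hR ∅ R.empty_mem
    have h3 : H.relIndex (Young χ) ≠ 0 := by
      unfold Subgroup.relIndex
      exact Subgroup.index_ne_zero_of_finite
    omega
  obtain ⟨R', hs, hN, hS⟩ := H16.LE.rst_exists (ρ := M.H.subtype) M.pr_mul M.pr_onto (ofR R) B
    (fun Λ hΛ => by
      obtain ⟨χ, H, hHY, hind, h2⟩ := hR Λ hΛ
      refine ⟨(H.map (tup (b + 1))).subgroupOf M.H,
        H16.LE.le_stL (ofR R).C M.H.subtype (fun g hg x hx => ?_), ?_⟩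
      · obtain ⟨g0, hg0, h3⟩ := hg
        obtain ⟨y, hy, h4, h5⟩ := h2 g0 hg0 x hx
        refine ⟨y, hy, h4, ?_⟩
        have h6 := img_of h5
        rw [← h3]
        exact h6
      · have h7 : Nat.card (Vs M.pr (((Young χ).map (tup (b + 1))).subgroupOf M.H)) ≤ 1 := by
          rw [hM]
          exact sgn_card (by omega) (by omega) e χ
        have h8 : (H.map (tup (b + 1))).subgroupOf M.H ≤ ((Young χ).map (tup (b + 1))).subgroupOf M.H :=
          Subgroup.comap_mono (Subgroup.map_mono hHY)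
        have h9 : ((H.map (tup (b + 1))).subgroupOf M.H).relIndex
            (((Young χ).map (tup (b + 1))).subgroupOf M.H) ≤ B := by
          refine le_trans ?_ hind
          rw [← Subgroup.relIndex_map_map_of_injective H (Young χ) hti]
          have h10 : ((H.map (tup (b + 1))).subgroupOf M.H).relIndex
              (((Young χ).map (tup (b + 1))).subgroupOf M.H) =
              (H.map (tup (b + 1))).relIndex
                ((((Young χ).map (tup (b + 1))).subgroupOf M.H).map M.H.subtype) :=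
            Subgroup.relIndex_comap _ M.H.subtype _
          rw [h10]
          refine Subgroup.relIndex_le_of_le_right ?_ ?_
          · rw [Subgroup.subgroupOf_map_subtype]
            exact inf_le_left
          · unfold Subgroup.relIndex
            exact Subgroup.index_ne_zero_of_finite
        exact (H16.LE.card_Vs_rel M.pr_mul h8).trans ((Nat.mul_le_mul h9 h7).trans (Nat.mul_one B).le))
  have hs' : R'.size = R.size := hs
  have hle : R.size ≤ 2 * B * R.size := Nat.le_mul_of_pos_left _ (by omega)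
  have hs0 : 1 ≤ R.size := H16.LE.size_pos (ofR R)
  have hI' : B ≤ 2 * B * R.size := by nlinarith
  refine lower_core hd hL hr M R' _ ?_ ?_ ?_ (le_max_right _ _)
  · rw [hs']
    exact hle.trans (le_max_left _ _)
  · intro a
    exact (hN a).trans (le_max_left _ _)
  · intro Λ hΛ
    exact (hS Λ hΛ).trans (hI'.trans (le_max_left _ _))

/-- Cells of tuples from cells of points. -/
noncomputable def tupCells {m p r : ℕ} (hm : 0 < m) {P : Type} (M : Cells p P r) :
    Cells p (Fin m → P) r :=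
  mkCells ((tup m).comp M.H.subtype) ((tup_injective hm).comp M.H.subtype_injective)
    (fun i c => {u | u ⟨0, hm⟩ ∈ M.C i c}) M.pr M.pr_mul M.pr_onto
    (fun i c => by
      obtain ⟨x, hx⟩ := M.ne i c
      exact ⟨fun _ => x, hx⟩)
    (fun i c j c' h => by
      rw [Set.disjoint_left]
      intro u h1 h2
      exact Set.disjoint_left.1 (M.disj i c j c' h) h1 h2)
    (fun g i c => by
      ext u
      constructor
      · rintro ⟨w, hw, rfl⟩
        show (g : Equiv.Perm P) (w ⟨0, hm⟩) ∈ M.C i (c + M.pr g i)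
        rw [← M.map g i c]
        exact ⟨_, hw, rfl⟩
      · intro hu
        have h1 : u ⟨0, hm⟩ ∈ M.C i (c + M.pr g i) := hu
        rw [← M.map g i c] at h1
        obtain ⟨x, hx, h2⟩ := h1
        refine ⟨fun t => (g : Equiv.Perm P).symm (u t), ?_, ?_⟩
        · show (g : Equiv.Perm P).symm (u ⟨0, hm⟩) ∈ M.C i c
          rw [← h2, Equiv.symm_apply_apply]
          exact hx
        · funext t
          exact (g : Equiv.Perm P).apply_symm_apply (u t))

theorem lowG {n m d r L B p : ℕ} [hp : Fact p.Prime] (hm : 0 < m) (hd : 3 ≤ d) (hL : 100 * d ≤ L)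
    (hr : L ^ d * (1 + 2 * d ^ 2) ≤ r) (M : Cells p (Fin n) r) (Γ : Subgroup (Equiv.Perm (Fin n)))
    (hM : M.H ≤ Γ) (R : Refutation (TM m (T d)) (Fin n))
    (hR : ∀ Λ ∈ R.lines, ∃ H : Subgroup (Equiv.Perm (Fin n)), H ≤ Γ ∧ H.relIndex Γ ≤ B ∧
      ∀ g ∈ H, Fixed R.C g Λ) :
    2 ^ (L ^ (d - 2) / 100 + 1) ≤
      (4 * max (2 * B * R.size) ((2 * (r + 1)) ^ k8 d)) ^ 24 := by
  classical
  have hti := tup_injective (m := m) hm (P := Fin n)
  refine lower hd hL hr (tupCells hm M) (ofR R) B fun Λ hΛ => ?_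
  obtain ⟨H, h1, h2, h3⟩ := hR Λ hΛ
  refine ⟨(H.map (tup m)).subgroupOf (tupCells hm M).H, ?_, fun g hg x hx => ?_⟩
  · refine le_trans ?_ h2
    show (H.map (tup m)).relIndex ((tup m).comp M.H.subtype).range ≤ _
    rw [MonoidHom.range_comp, Subgroup.range_subtype, Subgroup.relIndex_map_map_of_injective H M.H hti]
    refine Subgroup.relIndex_le_of_le_right hM ?_
    unfold Subgroup.relIndex
    exact Subgroup.index_ne_zero_of_finite
  · obtain ⟨g0, hg0, h4⟩ := hg
    obtain ⟨y, hy, h5, h6⟩ := h3 g0 hg0 x hx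
    refine ⟨y, hy, h5, ?_⟩
    have h7 := img_of h6
    have h8 : (g : Equiv.Perm (Fin m → Fin n)) = tup m g0 := h4.symm
    rw [h8]
    exact h7

/-- The upper bound. -/
theorem up (d : ℕ) : ∃ c : ℕ, ∀ m n : ℕ, 0 < m → 2 ≤ n →
    ∃ R : Refutation (TM m (T d)) (Fin n), R.size ≤ n ^ (c * m) ∧ ∀ a, R.C.rank a ≤ 7 := by
  obtain ⟨c, hc⟩ := upper d
  refine ⟨c, fun m n hm hn => ?_⟩
  obtain ⟨R, h1, h2⟩ := hc (n ^ m) (hn.trans (Nat.le_self_pow hm.ne' n))
  refine ⟨toR (f := finFunctionFinEquiv.symm) finFunctionFinEquiv.symm.surjective R, ?_, h2⟩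
  rw [toR_size, mul_comm, pow_mul]
  exact h1

/-- From `S ≤ 2 X` to `X`. -/
private theorem num2 {C C' X : ℕ} {E : ℝ} (hC : 0 < C) (hX : 2 ≤ X) (hE : 0 ≤ E)
    (h : (2 : ℝ) ^ (E / C) ≤ ((2 * X : ℕ) : ℝ)) (hC' : 2 * C ≤ C') : (2 : ℝ) ^ (E / C') ≤ X := by
  have hXr : (2 : ℝ) ≤ X := by exact_mod_cast hX
  have hX0 : (0 : ℝ) < X := by linarith
  have hCr : (0 : ℝ) < C := by exact_mod_cast hC
  have hCr' : (2 * C : ℝ) ≤ C' := by exact_mod_cast hC'
  have h1 : ((2 : ℝ) ^ (E / C')) ^ 2 ≤ (X : ℝ) ^ 2 := by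
    rw [← Real.rpow_natCast, ← Real.rpow_mul (by norm_num)]
    calc (2 : ℝ) ^ (E / C' * (2 : ℕ)) ≤ (2 : ℝ) ^ (E / C) := by
          apply Real.rpow_le_rpow_of_exponent_le (by norm_num)
          push_cast
          rw [div_mul_eq_mul_div, div_le_div_iff₀ (by linarith) hCr]
          nlinarith
      _ ≤ ((2 * X : ℕ) : ℝ) := h
      _ ≤ (X : ℝ) ^ 2 := by
          push_cast
          nlinarith
  exact le_of_sq_le_sq h1 (by positivity)

theorem main (δ : ℝ) (h0 : 0 < δ) (h1 : δ < 1) :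
    ∃ C : ℕ, 0 < C ∧ ∀ b : ℕ, 1 ≤ b →
      ∃ (S : Type) (ar : S → ℕ) (T : Set (Ax ar)), T.Finite ∧ (∀ A ∈ T, A.lits.Finite ∧ A.ex.Finite) ∧
        ∀ n : ℕ, 2 ≤ n →
          (∃ R : Refutation T (Fin n), R.size ≤ n ^ (C * b) ∧ ∀ a, R.C.rank a ≤ C) ∧
          (∀ (B : ℕ) (R : Refutation T (Fin n)),
            (∀ Λ ∈ R.lines, ∃ (χ : Fin n → Fin b) (H : Subgroup (Equiv.Perm (Fin n))),
              H ≤ Young χ ∧ H.relIndex (Young χ) ≤ B ∧ ∀ g ∈ H, Fixed R.C g Λ) →
            (2 : ℝ) ^ (((n : ℝ) / b) ^ (1 - δ) / C) ≤ B * R.size) ∧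
          ∀ (Γ : Subgroup (Equiv.Perm (Fin n))) (p h B : ℕ) (R : Refutation T (Fin n)), p.Prime →
            p ^ h ∣ Nat.card Γ →
            (∀ Λ ∈ R.lines, ∃ H : Subgroup (Equiv.Perm (Fin n)), H ≤ Γ ∧ H.relIndex Γ ≤ B ∧
              ∀ g ∈ H, Fixed R.C g Λ) →
            (2 : ℝ) ^ (((h : ℝ) / Real.logb 2 n) ^ (1 - δ) / C) ≤ B * R.size := by
  obtain ⟨d, C1, hd, hC1, hnum⟩ := numeric k8 δ h0 h1
  obtain ⟨c2, hup⟩ := up d
  obtain ⟨C, hC⟩ : ∃ C, C = 4 * (2 * C1 + 1) + 2 * c2 + 7 := ⟨_, rfl⟩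
  refine ⟨C, by omega, fun b hb => ⟨_, _, TM (b + 1) (T d), TM_finite (T_finite d),
    TM_lits fun A hA => T_lits A hA, fun n hn => ⟨?_, ?_, ?_⟩⟩⟩
  · obtain ⟨R, hs, hr⟩ := hup (b + 1) n (by omega) hn
    refine ⟨R, hs.trans (Nat.pow_le_pow_right (by omega) ?_), fun a => ?_⟩
    · have h2 : 2 * c2 ≤ C := by omega
      nlinarith
    · have := hr a
      omega
  · intro B R hR
    have hne : Nonempty (Fin n) := ⟨⟨0, by omega⟩⟩
    have hBp : 1 ≤ B := by
      obtain ⟨χ, H, -, h2, -⟩ := hR ∅ R.empty_mem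
      have h3 : H.relIndex (Young χ) ≠ 0 := by
        unfold Subgroup.relIndex
        exact Subgroup.index_ne_zero_of_finite
      omega
    obtain ⟨r, hr⟩ : ∃ r, r = n / (b + 1) := ⟨_, rfl⟩
    have hrn : r * (b + 1) ≤ n := by
      rw [hr]
      exact Nat.div_mul_le_self n (b + 1)
    have hnr : n ≤ (r + 1) * (b + 1) := by
      have h2 := Nat.lt_mul_div_succ n (show 0 < b + 1 by omega)
      rw [← hr, mul_comm] at h2
      exact h2.le
    have hs2 : 2 ≤ R.size := size_ge_two (ofR R)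
    obtain ⟨X, hX⟩ : ∃ X, X = B * R.size := ⟨_, rfl⟩
    have hX2 : 2 ≤ X := by
      rw [hX]
      exact hs2.trans (Nat.le_mul_of_pos_left _ hBp)
    have key := hnum C1 le_rfl r 2 r (2 * X) le_rfl
      (by rw [show Nat.log 2 2 = 1 by decide, mul_one])
      (by omega)
      (fun L hL hLr => by
        have h2 := low hd hL hLr hb hrn R hR
        rwa [show 2 * B * R.size = 2 * X by rw [hX]; ring] at h2)
    have h3 : ((r : ℝ) / Real.logb 2 (2 : ℕ)) ^ (1 - δ) = (r : ℝ) ^ (1 - δ) := by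
      push_cast
      rw [Real.logb_self_eq_one (by norm_num), div_one]
    rw [h3] at key
    obtain ⟨a, ha⟩ : ∃ a : ℝ, a = (r : ℝ) ^ (1 - δ) := ⟨_, rfl⟩
    have ha0 : 0 ≤ a := by
      rw [ha]
      positivity
    rw [← ha] at key
    have key2 := num2 (C' := 2 * C1) hC1 hX2 ha0 key le_rfl
    have hXr : (2 : ℝ) ≤ X := by exact_mod_cast hX2
    have hX0 : (0 : ℝ) < X := by linarith
    obtain ⟨lx, hlx⟩ : ∃ lx : ℝ, lx = Real.logb 2 X := ⟨_, rfl⟩
    have hl1 : 1 ≤ lx := by
      rw [hlx, Real.le_logb_iff_rpow_le (by norm_num) hX0, Real.rpow_one]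
      exact hXr
    have hC1r : (0 : ℝ) < C1 := by exact_mod_cast hC1
    have hl2 : a ≤ 2 * C1 * lx := by
      have h4 := (Real.le_logb_iff_rpow_le (by norm_num : (1 : ℝ) < 2) hX0).2 key2
      rw [← hlx, div_le_iff₀ (by push_cast; linarith)] at h4
      push_cast at h4
      linarith
    have hbr : (1 : ℝ) ≤ b := by exact_mod_cast hb
    have hE : ((n : ℝ) / b) ^ (1 - δ) ≤ 2 * (a + 1) := by
      have h2 : (n : ℝ) / b ≤ (r + 1) * 2 := by
        rw [div_le_iff₀ (by linarith)]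
        have h4 : (n : ℝ) ≤ (r + 1) * (b + 1) := by exact_mod_cast hnr
        have h5 : (0 : ℝ) ≤ r := Nat.cast_nonneg r
        nlinarith
      have h4 : ((n : ℝ) / b) ^ (1 - δ) ≤ ((r + 1) * 2 : ℝ) ^ (1 - δ) :=
        Real.rpow_le_rpow (by positivity) h2 (by linarith)
      rw [Real.mul_rpow (by positivity) (by positivity)] at h4
      have h5 : ((r : ℝ) + 1) ^ (1 - δ) ≤ a + 1 := by
        have h6 := Real.rpow_add_le_add_rpow (p := 1 - δ) (a := (r : ℝ)) (b := 1) (Nat.cast_nonneg r)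
          (by norm_num) (by linarith) (by linarith)
        rwa [Real.one_rpow, ← ha] at h6
      have h6 : (2 : ℝ) ^ (1 - δ) ≤ 2 := by
        have h7 := Real.rpow_le_rpow_of_exponent_le (x := (2 : ℝ)) (by norm_num)
          (show 1 - δ ≤ 1 by linarith)
        rwa [Real.rpow_one] at h7
      calc ((n : ℝ) / b) ^ (1 - δ) ≤ ((r : ℝ) + 1) ^ (1 - δ) * (2 : ℝ) ^ (1 - δ) := h4
        _ ≤ (a + 1) * 2 := mul_le_mul h5 h6 (by positivity) (by positivity)
        _ = 2 * (a + 1) := by ring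
    have hC0 : (0 : ℝ) < C := by
      rw [hC]
      positivity
    have hfin : ((n : ℝ) / b) ^ (1 - δ) / C ≤ lx := by
      rw [div_le_iff₀ hC0]
      have h2 : (C : ℝ) = 4 * (2 * C1 + 1) + 2 * c2 + 7 := by
        rw [hC]
        push_cast
        ring
      rw [h2]
      have h4 : (0 : ℝ) ≤ c2 := Nat.cast_nonneg c2
      nlinarith
    calc (2 : ℝ) ^ (((n : ℝ) / b) ^ (1 - δ) / C) ≤ 2 ^ lx :=
          Real.rpow_le_rpow_of_exponent_le (by norm_num) hfin
      _ = X := by
        rw [hlx, Real.rpow_logb (by norm_num) (by norm_num) hX0]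
      _ = B * R.size := by
        rw [hX]
        push_cast
        rfl
  · intro Γ p h B R hp hdiv hR
    have : Fact p.Prime := ⟨hp⟩
    have hne : Nonempty (Fin n) := ⟨⟨0, by omega⟩⟩
    obtain ⟨r, M, hM, hh⟩ := exists_cells Γ h hdiv
    have hBp : 1 ≤ B := by
      obtain ⟨H, -, h2, -⟩ := hR ∅ R.empty_mem
      have h3 : H.relIndex Γ ≠ 0 := by
        unfold Subgroup.relIndex
        exact Subgroup.index_ne_zero_of_finite
      omega
    have hs2 : 2 ≤ R.size := size_ge_two (ofR R)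
    have hX2 : 2 ≤ B * R.size := hs2.trans (Nat.le_mul_of_pos_left _ hBp)
    have key := hnum C1 le_rfl r n h (2 * (B * R.size)) hn hh (by omega)
      (fun L hL hLr => by
        have h2 := lowG (m := b + 1) (by omega) hd hL hLr M Γ hM R hR
        rwa [show 2 * B * R.size = 2 * (B * R.size) by ring] at h2)
    have hn1 : (0 : ℝ) ≤ Real.logb 2 n := Real.logb_nonneg (by norm_num) (by exact_mod_cast (by omega))
    have h2 := num2 (C' := C) hC1 hX2 (by positivity) key (by omega)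
    rw [Nat.cast_mul] at h2
    exact h2

end Pool.Agent.H16.TP
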