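import Pool.Agent.H16.TP.Tup
import Pool.Agent.H16.LE.Img

/-!
# Refutations of the tuple version are refutations over the tuples

`toR`: a refutation of `T` over the points `P'` is a refutation of `TM m T` over the points `P`, with the
same nodes and lines, if `f` maps `P'` onto `Fin m → P`. `ofR`: the converse for `P' = Fin m → P`. `img_of`: images of formulas under a map `g` of `P` are images under
the map `u ↦ g ∘ u` of `Fin m → P`.
-/

set_option autoImplicit false

namespace Pool.Agent.H16.TP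

open Pool.Agent.H42.CS (Lit Gate)

variable {Rel : ℕ → Type} {m : ℕ} {P : Type}

/-- Change of the variables in a label. -/
def gv {V V' N : Type} (f : V → V') : Gate V N → Gate V' N
  | .var v => .var (f v)
  | .and S => .and S
  | .sym A S => .sym A S

theorem gv_children {V V' N : Type} (f : V → V') (g : Gate V N) : (gv f g).children = g.children := by
  cases g <;> rfl

theorem gv_and {V V' N : Type} {f : V → V'} {g : Gate V N} {S : Set (Lit N)} :
    gv f g = .and S ↔ g = .and S := by
  cases g with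
  | var v => exact ⟨fun h => (nomatch h), fun h => (nomatch h)⟩
  | and X =>
    constructor
    · intro h
      have h1 : X = S := Gate.and.inj h
      rw [h1]
    · intro h
      have h1 : X = S := Gate.and.inj h
      rw [h1]
      rfl
  | sym A X => exact ⟨fun h => (nomatch h), fun h => (nomatch h)⟩

theorem gv_sym {V V' N : Type} {f : V → V'} {g : Gate V N} {A : Set ℕ} {S : Set (Lit N)} :
    gv f g = .sym A S ↔ g = .sym A S := by
  cases g with
  | var v => exact ⟨fun h => (nomatch h), fun h => (nomatch h)⟩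
  | and X => exact ⟨fun h => (nomatch h), fun h => (nomatch h)⟩
  | sym B X =>
    constructor
    · intro h
      have h1 : B = A ∧ X = S := Gate.sym.inj h
      rw [h1.1, h1.2]
    · intro h
      have h1 : B = A ∧ X = S := Gate.sym.inj h
      rw [h1.1, h1.2]
      rfl

/-- The circuit over `P`; the points `x` of `P'` become the tuples `f x`. -/
def toC {P' : Type} (f : P' → Fin m → P) (C : H42.CS.Circuit Rel P') : Circuit (arm Rel m) P where
  N := C.N
  fin := C.fin
  gate := fun a => gv (fl f) (C.gate a)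
  rank := C.rank
  rank_lt := fun a x hx => C.rank_lt a x (by rwa [gv_children] at hx)

/-- The circuit over `Fin m → P`. -/
def ofC (C : Circuit (arm Rel m) P) : H42.CS.Circuit Rel (Fin m → P) where
  N := C.N
  fin := C.fin
  gate := fun a => gv unfl (C.gate a)
  rank := C.rank
  rank_lt := fun a x hx => C.rank_lt a x (by rwa [gv_children] at hx)

theorem to_and {P' : Type} {f : P' → Fin m → P} {C : H42.CS.Circuit Rel P'} {a : C.N} {X : Set (Lit C.N)}
    (h : C.gate a = .and X) : (toC f C).gate a = .and X := gv_and.2 h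

theorem to_sym {P' : Type} {f : P' → Fin m → P} {C : H42.CS.Circuit Rel P'} {a : C.N} {A : Set ℕ}
    {X : Set (Lit C.N)} (h : C.gate a = .sym A X) : (toC f C).gate a = .sym A X := gv_sym.2 h

theorem of_and {C : Circuit (arm Rel m) P} {a : C.N} {X : Set (Lit C.N)} (h : C.gate a = .and X) :
    (ofC C).gate a = .and X := gv_and.2 h

theorem of_sym {C : Circuit (arm Rel m) P} {a : C.N} {A : Set ℕ} {X : Set (Lit C.N)}
    (h : C.gate a = .sym A X) : (ofC C).gate a = .sym A X := gv_sym.2 h

theorem to_step {P' : Type} {f : P' → Fin m → P} (hf : Function.Surjective f)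
    {T : Set (H42.CS.Ax Rel)} {C : H42.CS.Circuit Rel P'}
    {Pr : Set (Set (Lit C.N))} {Λ : Set (Lit C.N)} (h : H42.CS.Step T C Pr Λ) :
    Step (TM m T) (toC f C) Pr Λ := by
  cases h with
  | @hyp A v hA H =>
    refine Step.hyp (A := Tm m A) (v := fun t : Fin (A.k * m) =>
      f (v (finProdFinEquiv.symm t).1) (finProdFinEquiv.symm t).2) ⟨A, hA, rfl⟩ fun x hx => ?_
    have hx' := (Set.ext_iff.1 (Tm_inst A _) x).1 hx
    simp only [Equiv.symm_apply_apply] at hx'
    obtain ⟨y, ⟨l, hl, rfl⟩ | ⟨l, hl, y', rfl⟩, rfl⟩ := hx'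
    · obtain ⟨a, h1, h2⟩ := H _ (Or.inl ⟨l, hl, rfl⟩)
      refine ⟨a, ?_, h2⟩
      show gv (fl f) (C.gate a) = _
      rw [h1]
      rfl
    · obtain ⟨y0, rfl⟩ := hf y'
      obtain ⟨a, h1, h2⟩ := H _ (Or.inr ⟨l, hl, y0, rfl⟩)
      refine ⟨a, ?_, h2⟩
      show gv (fl f) (C.gate a) = _
      rw [h1]
      have h3 : (fun z : Fin (A.k + 1) => f ((Fin.snoc v y0 : Fin (A.k + 1) → P') z)) =
          (Fin.snoc (fun i j => f (v i) j) (f y0) : Fin (A.k + 1) → Fin m → P) :=
        Fin.comp_snoc f v y0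
      show _ = Gate.var (fl (fun x => x) (⟨l.1, l.2.1, fun i =>
        (Fin.snoc (fun i j => f (v i) j) (f y0) : Fin (A.k + 1) → Fin m → P) (l.2.2 i)⟩ :
          H42.CS.Atom Rel (Fin m → P)))
      rw [← h3]
      rfl
  | @ident a b h1 h2 h3 => exact Step.ident (C := toC f C) (congrArg (gv (fl f)) h1) h2 h3
  | weak h1 h2 => exact Step.weak (C := toC f C) h1 h2
  | @cut a h1 h2 => exact Step.cut (C := toC f C) (a := a) h1 h2
  | @andI S a h1 h2 h3 => exact Step.andI (C := toC f C) (X := S) (a := a) (to_and h1) h2 h3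
  | @andE S a h1 h2 h3 => exact Step.andE (C := toC f C) (X := S) (a := a) (to_and h1) h2 h3
  | @cover S H =>
    refine Step.cover (C := toC f C) (X := S) fun c hc => ?_
    obtain ⟨a, A, b, h1, h2, h3⟩ := H c hc
    exact ⟨a, A, b, to_sym h1, h2, h3⟩
  | @unit a A x h1 h2 h3 => exact Step.unit (C := toC f C) (a := a) (A := A) (x := x) (to_sym h1) h2 h3
  | @sum a p B A A' S h1 h2 h3 h4 h5 h6 h7 =>
    exact Step.sum (C := toC f C) (a := a) (p := p) (B := B) (A := A) (A' := A') (X := S)
      (fun b hb => to_sym (h1 b hb)) h2 (to_and h3) (to_sym h4) h5 h6 h7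
  | @dist a F J B u A A' h1 h2 h3 h4 h5 h6 h7 h8 =>
    exact Step.dist (C := toC f C) (a := a) (F := F) (J := J) (B := B) (u := u) (A := A) (A' := A') h1 h2
      (fun j hj X hX => to_sym (h3 j hj X hX)) (fun j hj => to_sym (h4 j hj)) (to_sym h5) h6 h7 h8

theorem of_step {T : Set (H42.CS.Ax Rel)} {C : Circuit (arm Rel m) P}
    {Pr : Set (Set (Lit C.N))} {Λ : Set (Lit C.N)} (h : Step (TM m T) C Pr Λ) :
    H42.CS.Step T (ofC C) Pr Λ := by
  cases h with
  | @hyp A' v hA H =>
    obtain ⟨A, hA, rfl⟩ := hA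
    refine H42.CS.Step.hyp (C := ofC C) (A := A) (v := fun i j => v (finProdFinEquiv (i, j))) hA
      fun x hx => ?_
    have h0 : ((fl (fun x => x) x.1, x.2) : Atom (arm Rel m) P × Bool) ∈ (Tm m A).inst v := by
      rw [Tm_inst]
      exact ⟨x, hx, rfl⟩
    obtain ⟨a, h1, h2⟩ := H _ h0
    refine ⟨a, ?_, h2⟩
    show gv unfl (C.gate a) = _
    rw [h1]
    exact congrArg Gate.var (unfl_fl x.1)
  | @ident a b h1 h2 h3 => exact H42.CS.Step.ident (C := ofC C) (congrArg (gv unfl) h1) h2 h3
  | weak h1 h2 => exact H42.CS.Step.weak (C := ofC C) h1 h2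
  | @cut a h1 h2 => exact H42.CS.Step.cut (C := ofC C) (a := a) h1 h2
  | @andI S a h1 h2 h3 => exact H42.CS.Step.andI (C := ofC C) (S := S) (a := a) (of_and h1) h2 h3
  | @andE S a h1 h2 h3 => exact H42.CS.Step.andE (C := ofC C) (S := S) (a := a) (of_and h1) h2 h3
  | @cover S H =>
    refine H42.CS.Step.cover (C := ofC C) (S := S) fun c hc => ?_
    obtain ⟨a, A, b, h1, h2, h3⟩ := H c hc
    exact ⟨a, A, b, of_sym h1, h2, h3⟩
  | @unit a A x h1 h2 h3 =>
    exact H42.CS.Step.unit (C := ofC C) (a := a) (A := A) (x := x) (of_sym h1) h2 h3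
  | @sum a p B A A' S h1 h2 h3 h4 h5 h6 h7 =>
    exact H42.CS.Step.sum (C := ofC C) (a := a) (p := p) (B := B) (A := A) (A' := A') (S := S)
      (fun b hb => of_sym (h1 b hb)) h2 (of_and h3) (of_sym h4) h5 h6 h7
  | @dist a F J B u A A' h1 h2 h3 h4 h5 h6 h7 h8 =>
    exact H42.CS.Step.dist (C := ofC C) (a := a) (F := F) (J := J) (B := B) (u := u) (A := A) (A' := A') h1 h2
      (fun j hj X hX => of_sym (h3 j hj X hX)) (fun j hj => of_sym (h4 j hj)) (of_sym h5) h6 h7 h8

/-- The refutation over `P`. -/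
def toR {P' : Type} {f : P' → Fin m → P} (hf : Function.Surjective f) {T : Set (H42.CS.Ax Rel)}
    (R : H42.CS.Refutation T P') : Refutation (TM m T) P where
  C := toC f R.C
  lines := R.lines
  order := R.order
  step := fun Λ hΛ => to_step hf (R.step Λ hΛ)
  empty_mem := R.empty_mem

/-- The refutation over `Fin m → P`. -/
def ofR {T : Set (H42.CS.Ax Rel)} (R : Refutation (TM m T) P) : H42.CS.Refutation T (Fin m → P) where
  C := ofC R.C
  lines := R.lines
  order := R.order
  step := fun Λ hΛ => of_step (R.step Λ hΛ)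
  empty_mem := R.empty_mem

theorem toR_size {P' : Type} {f : P' → Fin m → P} (hf : Function.Surjective f) {T : Set (H42.CS.Ax Rel)}
    (R : H42.CS.Refutation T P') : (toR hf R).size = R.size := rfl

theorem toR_rank {P' : Type} {f : P' → Fin m → P} (hf : Function.Surjective f) {T : Set (H42.CS.Ax Rel)}
    (R : H42.CS.Refutation T P') (a : R.C.N) : (toR hf R).C.rank a = R.C.rank a := rfl

theorem ofR_size {T : Set (H42.CS.Ax Rel)} (R : Refutation (TM m T) P) : (ofR R).size = R.size := rfl

/-- Images under `g` are images under `u ↦ g ∘ u`. -/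
theorem img_of {C : Circuit (arm Rel m) P} {g : P → P} {a b : C.N} (h : Img C g a b) :
    LE.Img (ofC C) (fun u i => g (u i)) a b := by
  induction h with
  | @var a b v h1 h2 =>
    refine LE.Img.var (C := ofC C) (v := unfl v) ?_ ?_
    · show gv unfl (C.gate a) = _
      rw [h1]
      rfl
    · show gv unfl (C.gate b) = _
      rw [h2]
      rfl
  | @and a b X X' β h1 h2 h3 h4 h5 ih =>
    exact LE.Img.and (C := ofC C) (S := X) (S' := X') β (of_and h1) (of_and h2) h3 h4 ih
  | @sym a b A X X' β h1 h2 h3 h4 h5 ih =>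
    exact LE.Img.sym (C := ofC C) (A := A) (S := X) (S' := X') β (of_sym h1) (of_sym h2) h3 h4 ih

end Pool.Agent.H16.TP
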