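import Pool.Agent.H16.TP.Defs

/-!
# The tuple version of a set of axioms

`Tm m A`: every variable of the first-order axiom `A` is replaced by a tuple of `m` variables, a relation
symbol with `r` arguments becomes a symbol with `r * m` arguments. The atoms over the points `P` are the
atoms over the points `Fin m → P` (`flat`).
-/

set_option autoImplicit false

namespace Pool.Agent.H16.TP

open Pool.Agent.H42.CS (Lit Gate)

variable {Rel : ℕ → Type}

/-- Arities of the tuple version. -/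
def arm (Rel : ℕ → Type) (m : ℕ) (s : Σ r : ℕ, Rel r) : ℕ := s.1 * m

/-- The atom with tuples `f x` in the place of the points `x`. -/
def fl {m : ℕ} {X Y : Type} (f : X → Fin m → Y) (v : H42.CS.Atom Rel X) : Atom (arm Rel m) Y :=
  ⟨⟨v.1, v.2.1⟩, fun t => f (v.2.2 (finProdFinEquiv.symm t).1) (finProdFinEquiv.symm t).2⟩

/-- The atoms over the points `P` are the atoms over the points `Fin m → P`. -/
def unfl {m : ℕ} {P : Type} (v : Atom (arm Rel m) P) : H42.CS.Atom Rel (Fin m → P) :=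
  ⟨v.1.1, v.1.2, fun i j => v.2 (finProdFinEquiv (i, j))⟩

theorem unfl_fl {m : ℕ} {P : Type} (v : H42.CS.Atom Rel (Fin m → P)) : unfl (fl (fun x => x) v) = v := by
  obtain ⟨r, R, w⟩ := v
  unfold unfl fl
  simp only [Equiv.symm_apply_apply]

theorem fl_unfl {m : ℕ} {P : Type} (v : Atom (arm Rel m) P) : fl (fun x => x) (unfl v) = v := by
  obtain ⟨⟨r, R⟩, w⟩ := v
  refine Sigma.ext rfl (heq_of_eq ?_)
  funext t
  exact congrArg w (finProdFinEquiv.apply_symm_apply t)

theorem fl_map {m : ℕ} {X Y Z : Type} (f : X → Fin m → Y) (g : Y → Z) (v : H42.CS.Atom Rel X) :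
    (fl f v).map g = fl (fun x j => g (f x j)) v := rfl

/-- The tuple version of an axiom. -/
def Tm (m : ℕ) (A : H42.CS.Ax Rel) : Ax (arm Rel m) where
  k := A.k * m
  e := m
  lits := {x | ∃ l ∈ A.lits, x = (fl (fun i j => finProdFinEquiv (i, j)) l.1, l.2)}
  ex := {x | ∃ l ∈ A.ex, x = fl (Fin.snoc (α := fun _ => Fin m → Fin (A.k * m) ⊕ Fin m)
    (fun i j => Sum.inl (finProdFinEquiv (i, j))) (fun j => Sum.inr j)) l}

/-- The instances of the tuple version are the instances of the axiom over the tuples. -/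
theorem Tm_inst {m : ℕ} {P : Type} (A : H42.CS.Ax Rel) (v : Fin (Tm m A).k → P) :
    (Tm m A).inst v =
      (fun x => (fl (fun x => x) x.1, x.2)) '' A.inst (fun i j => v (finProdFinEquiv (i, j))) := by
  have h0 : ∀ (y : Fin m → P), (fun (z : Fin (A.k + 1)) (j : Fin m) => Sum.elim v y
      ((Fin.snoc (α := fun _ => Fin m → Fin (A.k * m) ⊕ Fin m)
        (fun i j => Sum.inl (finProdFinEquiv (i, j))) (fun j => Sum.inr j) : Fin (A.k + 1) → Fin m → _) z j)) =
      (Fin.snoc (fun i j => v (finProdFinEquiv (i, j))) y : Fin (A.k + 1) → Fin m → P) := by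
    intro y
    funext z
    refine Fin.lastCases ?_ (fun z => ?_) z
    · simp only [Fin.snoc_last]
      rfl
    · simp only [Fin.snoc_castSucc]
      rfl
  ext x
  constructor
  · rintro (⟨l, ⟨l0, hl0, rfl⟩, rfl⟩ | ⟨l, ⟨l0, hl0, rfl⟩, y, rfl⟩)
    · exact ⟨_, Or.inl ⟨l0, hl0, rfl⟩, rfl⟩
    · refine ⟨_, Or.inr ⟨l0, hl0, y, rfl⟩, ?_⟩
      have h1 := h0 y
      refine Prod.ext ?_ rfl
      show fl (Fin.snoc (α := fun _ => Fin m → P) (fun i j => v (finProdFinEquiv (i, j))) y) l0 = _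
      rw [← h1]
      rfl
  · rintro ⟨_, ⟨l0, hl0, rfl⟩ | ⟨l0, hl0, y, rfl⟩, rfl⟩
    · exact Or.inl ⟨_, ⟨l0, hl0, rfl⟩, rfl⟩
    · refine Or.inr ⟨_, ⟨l0, hl0, rfl⟩, y, ?_⟩
      have h1 := h0 y
      refine Prod.ext ?_ rfl
      show fl (Fin.snoc (α := fun _ => Fin m → P) (fun i j => v (finProdFinEquiv (i, j))) y) l0 = _
      rw [← h1]
      rfl

/-- The tuple version of a set of axioms. -/
def TM (m : ℕ) (T : Set (H42.CS.Ax Rel)) : Set (Ax (arm Rel m)) := Tm m '' T

theorem TM_finite {m : ℕ} {T : Set (H42.CS.Ax Rel)} (h : T.Finite) : (TM m T).Finite := h.image _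

theorem TM_lits {m : ℕ} {T : Set (H42.CS.Ax Rel)} (h : ∀ A ∈ T, A.lits.Finite ∧ A.ex.Finite) :
    ∀ A ∈ TM m T, A.lits.Finite ∧ A.ex.Finite := by
  rintro _ ⟨A, hA, rfl⟩
  obtain ⟨h1, h2⟩ := h A hA
  constructor
  · refine (h1.image (fun l => (fl (fun i j => finProdFinEquiv (i, j)) l.1, l.2))).subset ?_
    rintro _ ⟨l, hl, rfl⟩
    exact ⟨l, hl, rfl⟩
  · refine (h2.image (fl (Fin.snoc (α := fun _ => Fin m → Fin (A.k * m) ⊕ Fin m)
      (fun i j => Sum.inl (finProdFinEquiv (i, j))) (fun j => Sum.inr j)))).subset ?_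
    rintro _ ⟨l, hl, rfl⟩
    exact ⟨l, hl, rfl⟩

end Pool.Agent.H16.TP
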